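import Mathlib
import Pool.Agent.Helper61.FR.Defs
import Pool.Agent.Helper61.FR.St.P2
import Pool.Agent.Helper61.FR.St.P10

/-!
# Exponential sums over the powers of three modulo powers of two

Weyl differencing (van der Corput's inequality with the shifts `2 ^ s j`): the sums
`∑ e (3 ^ k d / 2 ^ n)` over `k < 2 ^ q` are `o (2 ^ q)` uniformly for odd `d` and
`4 ≤ n ≤ J q`, for every fixed `J`.
-/

set_option autoImplicit false

open Finset
open Pool.Agent.Helper61.FR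

namespace Pool.Agent.Helper88.SC

/-- the sum of `e (3 ^ k d / 2 ^ n)` over `k < N` -/
noncomputable def W (N n : ℕ) (d : ℤ) : ℂ := ∑ k ∈ range N, e (3 ^ k * d / 2 ^ n)

lemma exists_odd_of_val (w t : ℕ) (hw : 1 ≤ w) (h1 : 2 ^ w ∣ t) (h2 : ¬ 2 ^ (w + 1) ∣ t) :
    ∃ u : ℕ, Odd u ∧ 3 ^ t = 1 + 2 ^ (w + 2) * u := by
  have h3 := (P2.two_pow_dvd_three_pow_sub_one (w + 2) t (by omega)).mpr (by simpa using h1)
  have h4 : ¬ 2 ^ (w + 3) ∣ 3 ^ t - 1 := fun h => h2 (by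
    have := (P2.two_pow_dvd_three_pow_sub_one (w + 3) t (by omega)).mp h
    simpa using this)
  obtain ⟨u, hu⟩ := h3
  have h5 : 1 ≤ 3 ^ t := Nat.one_le_pow _ _ (by norm_num)
  refine ⟨u, ?_, by omega⟩
  rw [← Nat.not_even_iff_odd]
  rintro ⟨v, rfl⟩
  exact h4 ⟨v, by rw [hu]; ring⟩

/-- The difference of two powers of `3` whose exponents are multiples of `2 ^ s`. -/
lemma exists_odd_sub (s h j j' : ℕ) (hs : 1 ≤ s) (hj : j < 2 ^ h) (hj' : j' < 2 ^ h) (hne : j ≠ j') :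
    ∃ (v : ℕ) (u : ℤ), v < h ∧ Odd u ∧
      (3 : ℤ) ^ (2 ^ s * j) - 3 ^ (2 ^ s * j') = 2 ^ (s + 2 + v) * u := by
  have key : ∀ a b : ℕ, a < 2 ^ h → b < a → ∃ (v : ℕ) (u : ℤ), v < h ∧ Odd u ∧
      (3 : ℤ) ^ (2 ^ s * a) - 3 ^ (2 ^ s * b) = 2 ^ (s + 2 + v) * u := by
    intro a b ha hb
    obtain ⟨v, m, hm, hvm⟩ := Nat.exists_eq_two_pow_mul_odd (n := a - b) (by omega)
    have hv : v < h := by
      by_contra hcon
      have h1 : 2 ^ h ≤ 2 ^ v := Nat.pow_le_pow_right (by norm_num) (by omega)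
      have h2 : 1 ≤ m := hm.pos
      have h3 : 2 ^ v ≤ 2 ^ v * m := Nat.le_mul_of_pos_right _ h2
      omega
    obtain ⟨u, hu, h3⟩ := exists_odd_of_val (s + v) (2 ^ s * (a - b)) (by omega)
      ⟨m, by rw [hvm, pow_add]; ring⟩ (by
        rintro ⟨c, hc⟩
        rw [hvm, show 2 ^ s * (2 ^ v * m) = 2 ^ (s + v) * m by rw [pow_add]; ring,
          show 2 ^ (s + v + 1) * c = 2 ^ (s + v) * (2 * c) by rw [pow_succ]; ring] at hc
        have := Nat.eq_of_mul_eq_mul_left (by positivity) hc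
        rw [this] at hm
        exact (Nat.not_odd_iff_even.mpr (even_two_mul c)) hm)
    refine ⟨v, 3 ^ (2 ^ s * b) * u, hv, Odd.mul (Odd.pow (by decide)) (by exact_mod_cast hu), ?_⟩
    have e1 : 2 ^ s * a = 2 ^ s * b + 2 ^ s * (a - b) := by
      rw [← mul_add]; congr 1; omega
    rw [e1, pow_add]
    have h4 : (3 : ℤ) ^ (2 ^ s * (a - b)) = 1 + 2 ^ (s + v + 2) * u := by exact_mod_cast h3
    rw [h4]
    ring
  rcases lt_or_gt_of_ne hne with h | h
  · obtain ⟨v, u, hv, hu, h1⟩ := key j' j hj' h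
    exact ⟨v, -u, hv, hu.neg, by rw [mul_neg, ← h1]; ring⟩
  · exact key j j' hj h

lemma sum_eq_zero_of_antiperiodic (f : ℕ → ℂ) (T : ℕ) (hf : ∀ x, f (x + T) = -f x) (m : ℕ) :
    ∑ k ∈ range (2 * T * m), f k = 0 := by
  induction m with
  | zero => simp
  | succ m ih =>
    rw [show 2 * T * (m + 1) = 2 * T * m + (T + T) by ring, sum_range_add, ih, zero_add,
      sum_range_add, ← sum_add_distrib]
    refine sum_eq_zero fun x _ => ?_
    rw [show 2 * T * m + (T + x) = 2 * T * m + x + T by ring, hf]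
    ring

lemma e_odd_half (u : ℤ) (hu : Odd u) : e (u / 2) = -1 := by
  obtain ⟨v, rfl⟩ := hu
  have : (((2 * v + 1 : ℤ) : ℝ) / 2) = v + 1 / 2 := by push_cast; ring
  rw [this, e_add, e_int, one_mul]
  unfold e
  have : (2 * Real.pi * ((1 / 2 : ℝ) : ℂ) * Complex.I : ℂ) = Real.pi * Complex.I := by
    push_cast; ring
  rw [this, Complex.exp_pi_mul_I]

/-- complete sums vanish -/
lemma W_eq_zero (q n : ℕ) (h1 : 4 ≤ n) (h2 : n ≤ q + 2) (d : ℤ) (hd : Odd d) :
    W (2 ^ q) n d = 0 := by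
  obtain ⟨a, rfl⟩ : ∃ a, n = a + 4 := ⟨n - 4, by omega⟩
  have h3 : (2 : ℕ) ^ q = 2 * 2 ^ (a + 1) * 2 ^ (q - (a + 2)) := by
    rw [← pow_succ', ← pow_add]; congr 1; omega
  unfold W
  rw [h3]
  apply sum_eq_zero_of_antiperiodic
  intro x
  obtain ⟨u, hu, h4⟩ := exists_odd_of_val (a + 1) (2 ^ (a + 1)) (by omega) dvd_rfl (by
    intro h
    have := Nat.pow_dvd_pow_iff_le_right (by norm_num : 1 < 2) |>.mp h
    omega)
  have h5 : (3 : ℝ) ^ (2 ^ (a + 1)) = 1 + 2 ^ (a + 1 + 2) * u := by exact_mod_cast h4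
  have h6 : (3 : ℝ) ^ (x + 2 ^ (a + 1)) * d / 2 ^ (a + 4) =
      3 ^ x * d / 2 ^ (a + 4) + ((3 ^ x * d * u : ℤ) : ℝ) / 2 := by
    rw [pow_add, h5]
    push_cast
    rw [show a + 4 = (a + 1 + 2) + 1 by ring, pow_succ (2 : ℝ) (a + 1 + 2)]
    have : (2 : ℝ) ^ (a + 1 + 2) ≠ 0 := by positivity
    field_simp
  rw [h6, e_add, e_odd_half _ (((Odd.pow (by decide)).mul hd).mul (by exact_mod_cast hu))]
  ring

lemma norm_shift_le (f : ℕ → ℂ) (hf : ∀ k, ‖f k‖ ≤ 1) (N t : ℕ) :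
    ‖∑ k ∈ range N, f k - ∑ k ∈ range N, f (k + t)‖ ≤ 2 * t := by
  induction t with
  | zero => simp
  | succ t ih =>
    have h1 : ∑ k ∈ range N, f (k + (t + 1)) = ∑ k ∈ range N, f (k + t) + f (N + t) - f t := by
      have h2 := sum_range_succ (fun k => f (k + t)) N
      have h3 := sum_range_succ' (fun k => f (k + t)) N
      rw [h2] at h3
      simp only [zero_add] at h3
      have h4 : ∀ k, f (k + (t + 1)) = f (k + 1 + t) := fun k => by congr 1; ring
      simp only [h4]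
      linear_combination -h3
    rw [h1]
    have : (∑ k ∈ range N, f k - (∑ k ∈ range N, f (k + t) + f (N + t) - f t)) =
        (∑ k ∈ range N, f k - ∑ k ∈ range N, f (k + t)) - f (N + t) + f t := by ring
    rw [this]
    calc _ ≤ ‖∑ k ∈ range N, f k - ∑ k ∈ range N, f (k + t)‖ + ‖f (N + t)‖ + ‖f t‖ :=
          (norm_add_le _ _).trans (add_le_add_left (norm_sub_le _ _) _)
      _ ≤ 2 * t + 1 + 1 := by gcongr <;> apply hf
      _ = 2 * (t + 1 : ℕ) := by push_cast; ring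

/-- van der Corput's inequality -/
lemma vdc (f : ℕ → ℂ) (hf : ∀ k, ‖f k‖ = 1) (N H t : ℕ) (B : ℝ) (hB0 : 0 ≤ B)
    (hB : ∀ j < H, ∀ j' < H, j ≠ j' →
      ‖∑ k ∈ range N, f (k + t * j) * (starRingEnd ℂ) (f (k + t * j'))‖ ≤ B) :
    (H * (‖∑ k ∈ range N, f k‖ - 2 * (t * H))) ^ 2 ≤ N * (H * N + H ^ 2 * B) ∨
      ‖∑ k ∈ range N, f k‖ ≤ 2 * (t * H) := by
  rcases le_or_gt (‖∑ k ∈ range N, f k‖) (2 * (t * H)) with h0 | h0
  · exact Or.inr h0
  left
  set g : ℕ → ℂ := fun k => ∑ j ∈ range H, f (k + t * j) with hg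
  -- the shifted sums
  have h1 : H * (‖∑ k ∈ range N, f k‖ - 2 * (t * H)) ≤ ‖∑ k ∈ range N, g k‖ := by
    have h2 : ∑ k ∈ range N, g k = ∑ j ∈ range H, ∑ k ∈ range N, f (k + t * j) := sum_comm
    have h3 : (H : ℂ) * ∑ k ∈ range N, f k - ∑ k ∈ range N, g k =
        ∑ j ∈ range H, (∑ k ∈ range N, f k - ∑ k ∈ range N, f (k + t * j)) := by
      rw [h2, sum_sub_distrib, sum_const, card_range, nsmul_eq_mul]
    have h4 : ‖(H : ℂ) * ∑ k ∈ range N, f k - ∑ k ∈ range N, g k‖ ≤ H * (2 * (t * H)) := by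
      rw [h3]
      refine (norm_sum_le _ _).trans ?_
      calc _ ≤ ∑ j ∈ range H, (2 * (t * H) : ℝ) := by
            refine sum_le_sum fun j hj => (norm_shift_le f (fun k => (hf k).le) N _).trans ?_
            have : (j : ℝ) ≤ H := by exact_mod_cast (mem_range.mp hj).le
            push_cast
            gcongr
        _ = _ := by rw [sum_const, card_range, nsmul_eq_mul]
    have h5 := norm_sub_norm_le ((H : ℂ) * ∑ k ∈ range N, f k) (∑ k ∈ range N, g k)
    rw [norm_mul, Complex.norm_natCast] at h5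
    linarith
  -- Cauchy-Schwarz
  have h2 : ‖∑ k ∈ range N, g k‖ ^ 2 ≤ N * ∑ k ∈ range N, ‖g k‖ ^ 2 := by
    calc _ ≤ (∑ k ∈ range N, ‖g k‖) ^ 2 := by
          gcongr; exact norm_sum_le _ _
      _ ≤ _ := by
          have := sq_sum_le_card_mul_sum_sq (s := range N) (f := fun k => ‖g k‖)
          simpa using this
  -- the diagonal and the rest
  have h3 : ∑ k ∈ range N, ‖g k‖ ^ 2 ≤ H * N + H ^ 2 * B := by
    have h4 : ((∑ k ∈ range N, ‖g k‖ ^ 2 : ℝ) : ℂ) = ∑ j ∈ range H, ∑ j' ∈ range H,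
        ∑ k ∈ range N, f (k + t * j) * (starRingEnd ℂ) (f (k + t * j')) := by
      push_cast
      have h5 : ∀ k, ((‖g k‖ : ℂ)) ^ 2 = ∑ j ∈ range H, ∑ j' ∈ range H,
          f (k + t * j) * (starRingEnd ℂ) (f (k + t * j')) := by
        intro k
        rw [← Complex.mul_conj', hg]
        simp only
        rw [map_sum, sum_mul_sum]
      simp only [h5]
      rw [sum_comm]
      refine sum_congr rfl fun j _ => ?_
      rw [sum_comm]
    have h5 : (∑ k ∈ range N, ‖g k‖ ^ 2 : ℝ) = ‖((∑ k ∈ range N, ‖g k‖ ^ 2 : ℝ) : ℂ)‖ := by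
      rw [Complex.norm_real, Real.norm_of_nonneg (by positivity)]
    rw [h5, h4]
    have h6 : ∀ j ∈ range H, ‖∑ j' ∈ range H, ∑ k ∈ range N,
        f (k + t * j) * (starRingEnd ℂ) (f (k + t * j'))‖ ≤ N + H * B := by
      intro j hj
      rw [← add_sum_erase _ _ hj]
      refine (norm_add_le _ _).trans (add_le_add ?_ ?_)
      · refine (norm_sum_le _ _).trans ?_
        calc _ ≤ ∑ k ∈ range N, (1 : ℝ) := by
              refine sum_le_sum fun k _ => ?_
              rw [norm_mul, RCLike.norm_conj, hf]; norm_num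
          _ = N := by simp
      · refine (norm_sum_le _ _).trans ?_
        calc _ ≤ ∑ j' ∈ (range H).erase j, B := by
              refine sum_le_sum fun j' hj' => ?_
              rw [mem_erase] at hj'
              exact hB j (mem_range.mp hj) j' (mem_range.mp hj'.2) (Ne.symm hj'.1)
          _ = ((range H).erase j).card * B := by rw [sum_const, nsmul_eq_mul]
          _ ≤ H * B := by
              gcongr
              calc ((range H).erase j).card ≤ (range H).card := card_le_card (erase_subset _ _)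
                _ = H := card_range H
    refine (norm_sum_le _ _).trans ((sum_le_sum h6).trans (le_of_eq ?_))
    rw [sum_const, card_range, nsmul_eq_mul]
    ring
  calc _ ≤ ‖∑ k ∈ range N, g k‖ ^ 2 := by
        apply pow_le_pow_left₀ _ h1
        have : 0 < ‖∑ k ∈ range N, f k‖ - 2 * (t * H) := by linarith
        positivity
    _ ≤ _ := h2.trans (by gcongr)

/-- **Weyl sums.**  For every fixed `J` the sums over `k < 2 ^ q` of `e (3 ^ k d / 2 ^ n)`,
`d` odd, `4 ≤ n ≤ q + 2 + J (q / 2)`, are uniformly `o (2 ^ q)`. -/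
theorem weyl (J : ℕ) : ∀ ε : ℝ, 0 < ε → ∃ q₁ : ℕ, ∀ q, q₁ ≤ q → ∀ n, 4 ≤ n →
    n ≤ q + 2 + J * (q / 2) → ∀ d : ℤ, Odd d → ‖W (2 ^ q) n d‖ ≤ ε * 2 ^ q := by
  induction J with
  | zero =>
    intro ε hε
    refine ⟨0, fun q _ n h1 h2 d hd => ?_⟩
    rw [W_eq_zero q n h1 (by omega) d hd, norm_zero]
    positivity
  | succ J ih =>
    intro ε hε
    obtain ⟨q₂, hq₂⟩ := ih (ε ^ 2 / 8) (by positivity)
    obtain ⟨h, hh⟩ := pow_unbounded_of_one_lt (8 / ε ^ 2) (by norm_num : (1 : ℝ) < 2)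
    obtain ⟨h', hh'⟩ := pow_unbounded_of_one_lt (4 * 2 ^ h / ε) (by norm_num : (1 : ℝ) < 2)
    refine ⟨q₂ + 2 * (h + h' + 4), fun q hq n h1 h2 d hd => ?_⟩
    rcases le_or_gt n (q + 2) with h3 | h3
    · rw [W_eq_zero q n h1 h3 d hd, norm_zero]
      positivity
    obtain ⟨s, hs⟩ : ∃ s, s = q / 2 := ⟨_, rfl⟩
    have hs1 : 1 ≤ s := by omega
    have hqs : s + (h + h' + 4) ≤ q := by omega
    rw [← hs, add_mul, one_mul] at h2
    have key := vdc (fun k => e (3 ^ k * d / 2 ^ n)) (fun k => norm_e _) (2 ^ q) (2 ^ h) (2 ^ s)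
      (ε ^ 2 / 8 * 2 ^ q) (by positivity) ?_
    · have e1 : ‖∑ k ∈ range (2 ^ q), e (3 ^ k * d / 2 ^ n)‖ = ‖W (2 ^ q) n d‖ := rfl
      rw [e1] at key
      have h4 : (2 : ℝ) * ((2 ^ s : ℕ) * (2 ^ h : ℕ)) ≤ ε / 2 * 2 ^ q := by
        push_cast
        have h5 : (2 : ℝ) ^ s * 2 ^ h' ≤ 2 ^ q := by
          rw [← pow_add]; exact pow_le_pow_right₀ (by norm_num) (by omega)
        have h6 : 4 * 2 ^ h ≤ ε * 2 ^ h' := by
          rw [div_lt_iff₀ hε] at hh'; linarith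
        have h7 : (0 : ℝ) < 2 ^ s := by positivity
        nlinarith
      rcases key with key | key
      · by_contra hcon
        push Not at hcon
        set w := ‖W (2 ^ q) n d‖ with hw
        have h5 : ε / 2 * 2 ^ q ≤ w - 2 * ((2 ^ s : ℕ) * (2 ^ h : ℕ)) := by linarith
        have h6 : ((2 ^ h : ℕ) * (ε / 2 * 2 ^ q)) ^ 2 ≤
            ((2 ^ h : ℕ) * (w - 2 * ((2 ^ s : ℕ) * (2 ^ h : ℕ)))) ^ 2 := by
          gcongr
        have h7 := h6.trans key
        push_cast at h7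
        have h8 : (8 : ℝ) < ε ^ 2 * 2 ^ h := by
          rw [div_lt_iff₀ (by positivity)] at hh; linarith
        have h9 : (2 : ℝ) ^ q * (2 ^ h * 2 ^ q + (2 ^ h) ^ 2 * (ε ^ 2 / 8 * 2 ^ q)) <
            (2 ^ h * (ε / 2 * 2 ^ q)) ^ 2 := by
          have h10 : (0 : ℝ) < 2 ^ h * (2 ^ q * 2 ^ q) := by positivity
          have h11 := mul_lt_mul_of_pos_left h8 h10
          have e2 : (2 : ℝ) ^ q * (2 ^ h * 2 ^ q + (2 ^ h) ^ 2 * (ε ^ 2 / 8 * 2 ^ q)) =
              2 ^ h * (2 ^ q * 2 ^ q) + (2 ^ h * (2 ^ q * 2 ^ q) * (ε ^ 2 * 2 ^ h)) / 8 := by ring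
          have e3 : ((2 : ℝ) ^ h * (ε / 2 * 2 ^ q)) ^ 2 =
            (2 ^ h * (2 ^ q * 2 ^ q) * (ε ^ 2 * 2 ^ h)) / 4 := by ring
          rw [e2, e3]
          linarith
        linarith
      · have h5 : 0 < ε * 2 ^ q := by positivity
        linarith
    · intro j hj j' hj' hne
      obtain ⟨v, u, hv, hu, h4⟩ := exists_odd_sub s h j j' hs1 hj hj' hne
      obtain ⟨n', hn'⟩ : ∃ n', n = n' + (s + 2 + v) := ⟨n - (s + 2 + v), by omega⟩
      have h5 := hq₂ q (by omega) n' (by omega) (by rw [← hs]; omega) (d * u) (hd.mul hu)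
      refine le_trans (le_of_eq ?_) h5
      unfold W
      congr 1
      refine sum_congr rfl fun k _ => ?_
      show e _ * (starRingEnd ℂ) (e _) = _
      rw [P2.conj_e, ← e_add]
      congr 1
      have h6 : (3 : ℝ) ^ (2 ^ s * j) - 3 ^ (2 ^ s * j') = 2 ^ (s + 2 + v) * u := by
        exact_mod_cast h4
      have h7 : (2 : ℝ) ^ (s + 2 + v) ≠ 0 := by positivity
      have h8 : (3 : ℝ) ^ (k + 2 ^ s * j) * d / 2 ^ n + -((3 : ℝ) ^ (k + 2 ^ s * j') * d / 2 ^ n) =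
          3 ^ k * d * (3 ^ (2 ^ s * j) - 3 ^ (2 ^ s * j')) / (2 ^ n' * 2 ^ (s + 2 + v)) := by
        rw [hn', pow_add (2 : ℝ) n', pow_add (3 : ℝ) k, pow_add (3 : ℝ) k]
        ring
      rw [h8, h6]
      push_cast
      field_simp

end Pool.Agent.Helper88.SC
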